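import Mathlib

set_option autoImplicit false
set_option linter.style.haveILetI false

/-! Algebra for MP_0bb520: homomorphisms into divisible groups. -/

namespace Pool.Agent.V11186.LM

open Finsupp

/-- finitely supported rational functions form a divisible group -/
noncomputable abbrev divFQ (s : Type*) : DivisibleBy (s →₀ ℚ) ℤ where
  div x n := ((n : ℚ)⁻¹) • x
  div_zero x := by simp
  div_cancel {n} x hn := by
    rw [← Int.cast_smul_eq_zsmul ℚ n, smul_smul, mul_inv_cancel₀ (by exact_mod_cast hn), one_smul]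

theorem exists_indep {B : Type*} [AddCommGroup B]
    (htf : ∀ n : ℤ, n ≠ 0 → ∀ b : B, n • b = 0 → b = 0) (hunc : ¬ Countable B) :
    ∃ s : Set B, s.Infinite ∧ LinearIndepOn ℤ id s := by
  obtain ⟨s, hs, hmax⟩ := exists_maximal_linearIndepOn ℤ (id : B → B)
  refine ⟨s, fun hfin => hunc ?_, hs⟩
  haveI : Countable s := hfin.countable.to_subtype
  have h1 : ∀ b : B, ∃ (a : ℤ) (l : s →₀ ℤ), a ≠ 0 ∧ a • b = Finsupp.linearCombination ℤ
      (Subtype.val : s → B) l := by
    intro b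
    by_cases hb : b ∈ s
    · refine ⟨1, Finsupp.single ⟨b, hb⟩ 1, one_ne_zero, ?_⟩
      rw [Finsupp.linearCombination_single]
    · obtain ⟨a, ha, h⟩ := hmax b hb
      rw [Set.image_id] at h
      have h' : a • b ∈ Submodule.span ℤ (Set.range (Subtype.val : s → B)) := by
        rw [Subtype.range_coe]; exact h
      rw [Finsupp.mem_span_range_iff_exists_finsupp] at h'
      obtain ⟨l, hl⟩ := h'
      exact ⟨a, l, ha, by rw [← hl]; rfl⟩
  choose a l ha hl using h1
  have hinj : Function.Injective (fun b => (a b, l b)) := by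
    intro b c hbc
    have e1 : a b = a c := congrArg Prod.fst hbc
    have e2 : l b = l c := congrArg Prod.snd hbc
    have h2 : a b • (b - c) = 0 := by
      rw [smul_sub, hl b, e1, hl c, e2, sub_self]
    exact sub_eq_zero.1 (htf _ (ha b) _ h2)
  exact hinj.countable

theorem exists_e {B : Type*} [AddCommGroup B]
    (htf : ∀ n : ℤ, n ≠ 0 → ∀ b : B, n • b = 0 → b = 0) (hunc : ¬ Countable B) (P : Finset B) :
    ∃ (e : B →+ (ℕ →₀ ℚ)) (b : ℕ → B), (∀ p ∈ P, e p = 0) ∧ ∀ i, e (b i) = single i 1 := by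
  classical
  obtain ⟨s, hsi, hs⟩ := exists_indep htf hunc
  letI := divFQ s
  have hB := Module.Baer.of_divisible (s →₀ ℚ)
  let f : (s →₀ ℤ) →+ B := (Finsupp.linearCombination ℤ (Subtype.val : s → B)).toAddMonoidHom
  have hf : Function.Injective f := hs
  let g : (s →₀ ℤ) →+ (s →₀ ℚ) := Finsupp.mapRange.addMonoidHom (Int.castAddHom ℚ)
  obtain ⟨e0, he0⟩ := hB.extension_property_addMonoidHom f hf g
  have he : ∀ i : s, e0 (i : B) = single i 1 := by
    intro i
    have h1 : f (single i 1) = (i : B) := by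
      show Finsupp.linearCombination ℤ (Subtype.val : s → B) (single i 1) = (i : B)
      rw [Finsupp.linearCombination_single, one_smul]
    have h2 : g (single i 1) = single i 1 := by
      show Finsupp.mapRange (Int.castAddHom ℚ) (map_zero _) (single i (1 : ℤ)) = _
      rw [Finsupp.mapRange_single]
      simp
    rw [← h1, ← h2, ← he0]
    rfl
  let T : Finset s := P.biUnion fun p => (e0 p).support
  haveI : Infinite s := hsi.to_subtype
  have hT : ((T : Set s)ᶜ).Infinite := T.finite_toSet.infinite_compl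
  let c : ℕ → s := fun n => (hT.natEmbedding _ n : s)
  have hc : Function.Injective c := fun a b h => (hT.natEmbedding _).injective (Subtype.ext h)
  have hcT : ∀ n, c n ∉ T := fun n => (hT.natEmbedding _ n).2
  refine ⟨(Finsupp.comapDomain.addMonoidHom hc).comp e0, fun n => (c n : B), ?_, ?_⟩
  · intro p hp
    ext n
    show (Finsupp.comapDomain c (e0 p) hc.injOn) n = 0
    rw [Finsupp.comapDomain_apply]
    by_contra hne
    exact hcT n (Finset.mem_biUnion.2 ⟨p, hp, Finsupp.mem_support_iff.2 hne⟩)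
  · intro i
    show Finsupp.comapDomain c (e0 (c i : B)) hc.injOn = single i 1
    rw [he, Finsupp.comapDomain_single]

/-- the `2`-power torsion of the circle -/
def T2 : Subgroup Circle where
  carrier := {z | ∃ k : ℕ, z ^ (2 ^ k) = 1}
  one_mem' := ⟨0, by simp⟩
  mul_mem' := by
    rintro a b ⟨k, hk⟩ ⟨l, hl⟩
    refine ⟨k + l, ?_⟩
    rw [mul_pow, pow_add, pow_mul, hk, one_pow, mul_comm (2 ^ k), pow_mul, hl, one_pow, one_mul]
  inv_mem' := by
    rintro a ⟨k, hk⟩
    exact ⟨k, by rw [inv_pow, hk, inv_one]⟩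

theorem T2_div_nat (z : Circle) (hz : z ∈ T2) (N : ℕ) (hN : N ≠ 0) : ∃ w ∈ T2, w ^ N = z := by
  obtain ⟨k, hk⟩ := hz
  obtain ⟨a, q, hq, rfl⟩ := Nat.exists_eq_two_pow_mul_odd hN
  obtain ⟨w0, hw0⟩ : ∃ w0 : Circle, w0 ^ (2 ^ a) = z := by
    refine ⟨Circle.exp (Complex.arg z / (2 ^ a : ℕ)), ?_⟩
    rw [← Circle.exp_natCast_mul, mul_div_cancel₀ _ (by positivity), Circle.exp_arg]
  have h0 : w0 ^ (2 ^ (a + k)) = 1 := by rw [pow_add, pow_mul, hw0, hk]
  have hco : IsCoprime (q : ℤ) ((2 ^ (a + k) : ℕ) : ℤ) := by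
    rw [Nat.isCoprime_iff_coprime]
    exact (Nat.Coprime.pow_left _ (Nat.coprime_two_left.2 hq)).symm
  obtain ⟨u, v, huv⟩ := hco
  refine ⟨w0 ^ u, T2.zpow_mem ⟨a + k, h0⟩ u, ?_⟩
  have h1 : z ^ ((2 ^ (a + k) : ℕ) : ℤ) = 1 := by
    rw [zpow_natCast, add_comm, pow_add, pow_mul, hk, one_pow]
  calc (w0 ^ u) ^ (2 ^ a * q) = (w0 ^ (2 ^ a)) ^ (u * q) := by
        rw [← zpow_natCast, ← zpow_natCast, ← zpow_mul, ← zpow_mul]
        congr 1
        push_cast; ring
    _ = z ^ (1 - v * ((2 ^ (a + k) : ℕ) : ℤ)) := by rw [hw0]; congr 1; linarith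
    _ = z := by rw [zpow_sub, zpow_one, mul_comm v, zpow_mul, h1, one_zpow, inv_one, mul_one]

theorem T2_div (n : ℤ) (hn : n ≠ 0) : Function.Surjective (fun a : Additive T2 => n • a) := by
  intro x
  have h1 := T2_div_nat (x.toMul : Circle) x.toMul.2 n.natAbs (Int.natAbs_ne_zero.2 hn)
  obtain ⟨w, hw, hwx⟩ := h1
  have h2 : n.natAbs • (Additive.ofMul (⟨w, hw⟩ : T2)) = x := by
    apply Additive.toMul.injective
    apply Subtype.ext
    exact hwx
  rcases Int.natAbs_eq n with h | h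
  · refine ⟨Additive.ofMul ⟨w, hw⟩, ?_⟩
    show n • (Additive.ofMul (⟨w, hw⟩ : T2)) = x
    rw [h, natCast_zsmul, h2]
  · refine ⟨-Additive.ofMul ⟨w, hw⟩, ?_⟩
    show n • (-Additive.ofMul (⟨w, hw⟩ : T2)) = x
    rw [h, neg_smul_neg, natCast_zsmul, h2]

theorem exists_root (m : ℕ) : ∃ z : Circle, z ^ (2 ^ m) = 1 ∧ ∀ a : ℕ, z ^ a = 1 → 2 ^ m ∣ a := by
  have hp := Complex.isPrimitiveRoot_exp (2 ^ m) (by positivity)
  have e1 : ((Circle.exp (2 * Real.pi / (2 ^ m : ℕ)) : Circle) : ℂ) =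
      Complex.exp (2 * Real.pi * Complex.I / (2 ^ m : ℕ)) := by
    rw [Circle.coe_exp]
    congr 1
    push_cast
    ring
  refine ⟨Circle.exp (2 * Real.pi / (2 ^ m : ℕ)), ?_, ?_⟩
  · apply Circle.ext
    rw [Circle.coe_pow, e1, Circle.coe_one]
    exact hp.pow_eq_one
  · intro a ha
    have h2 := congrArg (fun z : Circle => (z : ℂ)) ha
    simp only [Circle.coe_pow, Circle.coe_one] at h2
    rw [e1] at h2
    exact hp.dvd_of_pow_eq_one _ h2

theorem exists_h (m : ℕ → ℕ) : ∃ h : (ℕ →₀ ℚ) →+ Additive Circle,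
    (∀ v, ∃ k : ℕ, (h v).toMul ^ (2 ^ k) = 1) ∧
      ∀ (i a : ℕ), (h (single i 1)).toMul ^ a = 1 → 2 ^ (m i) ∣ a := by
  classical
  letI : DivisibleBy (Additive T2) ℤ := divisibleByOfSMulRightSurj _ _ (fun {n} hn => T2_div n hn)
  have hB := Module.Baer.of_divisible (Additive T2)
  choose ζ hζ1 hζ2 using fun i => exists_root (m i)
  let f : (ℕ →₀ ℤ) →+ (ℕ →₀ ℚ) := Finsupp.mapRange.addMonoidHom (Int.castAddHom ℚ)
  have hf : Function.Injective f :=
    Finsupp.mapRange_injective _ (map_zero _) (fun a b h => Int.cast_injective h)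
  let g : (ℕ →₀ ℤ) →+ Additive T2 := Finsupp.liftAddHom
    (fun i => (zmultiplesHom (Additive T2)) (Additive.ofMul (⟨ζ i, ⟨m i, hζ1 i⟩⟩ : T2)))
  obtain ⟨h0, hh0⟩ := hB.extension_property_addMonoidHom f hf g
  refine ⟨(MonoidHom.toAdditive T2.subtype).comp h0, ?_, ?_⟩
  · intro v
    exact (h0 v).toMul.2
  · intro i a ha
    apply hζ2 i
    have h1 : f (single i 1) = single i 1 := by
      show Finsupp.mapRange (Int.castAddHom ℚ) (map_zero _) (single i (1 : ℤ)) = _
      rw [Finsupp.mapRange_single]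
      simp
    have h2 : g (single i 1) = Additive.ofMul (⟨ζ i, ⟨m i, hζ1 i⟩⟩ : T2) := by
      show Finsupp.liftAddHom _ (single i (1 : ℤ)) = _
      rw [Finsupp.liftAddHom_apply_single]
      exact one_zsmul _
    have h3 : h0 (single i 1) = Additive.ofMul (⟨ζ i, ⟨m i, hζ1 i⟩⟩ : T2) := by
      rw [← h1, ← h2, ← hh0]; rfl
    have h4 : ((MonoidHom.toAdditive T2.subtype).comp h0 (single i 1)).toMul = ζ i := by
      show ((h0 (single i 1)).toMul : Circle) = ζ i
      rw [h3]; rfl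
    rwa [h4] at ha

end Pool.Agent.V11186.LM
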