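import Mathlib

set_option autoImplicit false

set_option linter.unusedSectionVars false
set_option linter.style.haveILetI false

/-! Adapted (universe polymorphic) from the starting file `Pool/Agent/Helper69/CC.lean`. -/

namespace Pool.Agent.V11186.LM

open MeasureTheory Topology

variable {Γ : Type*} [CommGroup Γ] [TopologicalSpace Γ] [IsTopologicalGroup Γ]

/-- complex function of a continuous character -/
noncomputable def cf (χ : Γ →ₜ* Circle) : C(Γ, ℂ) :=
  ⟨fun x => (χ x : ℂ), continuous_subtype_val.comp χ.continuous_toFun⟩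

theorem cf_apply (χ : Γ →ₜ* Circle) (x : Γ) : cf χ x = (χ x : ℂ) := rfl

theorem cf_mul (χ ψ : Γ →ₜ* Circle) : cf (χ * ψ) = cf χ * cf ψ := by
  ext x; simp [cf_apply]

theorem cf_one : cf (1 : Γ →ₜ* Circle) = 1 := by
  ext x; simp [cf_apply]

theorem star_cf (χ : Γ →ₜ* Circle) : star (cf χ) = cf χ⁻¹ := by
  ext x
  have h : (χ⁻¹ : Γ →ₜ* Circle) x = (χ x)⁻¹ := rfl
  rw [cf_apply, h, Circle.coe_inv_eq_conj]
  simp [cf_apply]

variable [CompactSpace Γ] [T2Space Γ]

/-- star subalgebra generated by characters -/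
noncomputable def alg (B : Subgroup (Γ →ₜ* Circle)) : StarSubalgebra ℂ C(Γ, ℂ) where
  toSubalgebra := Algebra.adjoin ℂ (cf '' (B : Set (Γ →ₜ* Circle)))
  star_mem' := by
    change Algebra.adjoin ℂ (cf '' (B : Set (Γ →ₜ* Circle))) ≤
      star (Algebra.adjoin ℂ (cf '' (B : Set (Γ →ₜ* Circle))))
    refine Algebra.adjoin_le ?_
    rintro - ⟨χ, hχ, rfl⟩
    exact Algebra.subset_adjoin ⟨χ⁻¹, B.inv_mem hχ, (star_cf χ).symm⟩

theorem alg_coe (B : Subgroup (Γ →ₜ* Circle)) :
    Subalgebra.toSubmodule (alg B).toSubalgebra =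
      Submodule.span ℂ (cf '' (B : Set (Γ →ₜ* Circle))) := by
  apply Algebra.adjoin_eq_span_of_subset
  refine Set.Subset.trans ?_ Submodule.subset_span
  intro x hx
  refine Submonoid.closure_induction (fun _ => id) ⟨1, B.one_mem, cf_one⟩ ?_ hx
  rintro - - - - ⟨m, hm, rfl⟩ ⟨n, hn, rfl⟩
  exact ⟨m * n, B.mul_mem hm hn, cf_mul _ _⟩

theorem functional_zero (B : Subgroup (Γ →ₜ* Circle))
    (hsep : ∀ x y : Γ, x ≠ y → ∃ χ ∈ B, χ x ≠ χ y) (L : C(Γ, ℂ) →L[ℂ] ℂ)
    (hL : ∀ χ ∈ B, L (cf χ) = 0) : L = 0 := by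
  have hdense : (alg B).topologicalClosure = ⊤ := by
    apply ContinuousMap.starSubalgebra_topologicalClosure_eq_top_of_separatesPoints
    intro x y hxy
    obtain ⟨χ, hχ, hne⟩ := hsep x y hxy
    refine ⟨_, ⟨cf χ, Algebra.subset_adjoin ⟨χ, hχ, rfl⟩, rfl⟩, ?_⟩
    intro h
    exact hne (Subtype.coe_injective (by simpa [cf_apply] using h))
  have hz : ∀ f ∈ Submodule.span ℂ (cf '' (B : Set (Γ →ₜ* Circle))), L f = 0 := by
    intro f hf
    induction hf using Submodule.span_induction with
    | mem x hx => obtain ⟨χ, hχ, rfl⟩ := hx; exact hL χ hχ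
    | zero => simp
    | add x y _ _ hx hy => rw [map_add, hx, hy, add_zero]
    | smul a x _ hx => rw [map_smul, hx, smul_zero]
  have hcl : IsClosed {f : C(Γ, ℂ) | L f = 0} := isClosed_eq L.continuous continuous_const
  have hall : ∀ f, L f = 0 := by
    intro f
    have hf : f ∈ ((alg B).topologicalClosure : Set C(Γ, ℂ)) := by rw [hdense]; trivial
    rw [StarSubalgebra.topologicalClosure_coe] at hf
    refine closure_minimal ?_ hcl hf
    intro g hg
    apply hz
    rw [← alg_coe]
    exact hg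
  ext f
  exact hall f


section Haar

variable [MeasurableSpace Γ] [BorelSpace Γ] (μ : Measure Γ) [μ.IsHaarMeasure]

theorem integral_char (χ : Γ →ₜ* Circle) (hχ : χ ≠ 1) : ∫ x, (χ x : ℂ) ∂μ = 0 := by
  obtain ⟨g, hg⟩ : ∃ g, χ g ≠ 1 := by
    by_contra h
    push Not at h
    exact hχ (by ext x; rw [h x]; rfl)
  have h1 : ∫ x, (χ (g * x) : ℂ) ∂μ = ∫ x, (χ x : ℂ) ∂μ :=
    integral_mul_left_eq_self (fun x => (χ x : ℂ)) g
  have h2 : ∫ x, (χ (g * x) : ℂ) ∂μ = (χ g : ℂ) * ∫ x, (χ x : ℂ) ∂μ := by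
    rw [← integral_const_mul]
    congr 1
    ext x
    rw [map_mul, Circle.coe_mul]
  rw [h1] at h2
  have h3 : (1 - (χ g : ℂ)) * ∫ x, (χ x : ℂ) ∂μ = 0 := by
    rw [sub_mul, one_mul, ← h2, sub_self]
  rcases mul_eq_zero.1 h3 with h | h
  · exfalso
    apply hg
    apply Subtype.coe_injective
    change (χ g : ℂ) = ((1 : Circle) : ℂ)
    rw [Circle.coe_one]
    linear_combination -h
  · exact h

theorem cint (f : C(Γ, ℂ)) : Integrable f μ :=
  f.continuous.integrable_of_hasCompactSupport (HasCompactSupport.of_compactSpace f)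

/-- integration against a continuous function as a functional -/
noncomputable def intL (g : C(Γ, ℂ)) : C(Γ, ℂ) →L[ℂ] ℂ :=
  LinearMap.mkContinuous
    { toFun := fun f => ∫ x, f x * g x ∂μ
      map_add' := by
        intro f f'
        simp only [ContinuousMap.add_apply, add_mul]
        exact integral_add (cint μ (f * g)) (cint μ (f' * g))
      map_smul' := by
        intro c f
        simp only [ContinuousMap.smul_apply, smul_eq_mul, mul_assoc, RingHom.id_apply]
        exact integral_const_mul _ _ }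
    ((μ Set.univ).toReal * ‖g‖) (by
      intro f
      change ‖∫ x, f x * g x ∂μ‖ ≤ _
      have h1 : ∀ᵐ x ∂μ, ‖f x * g x‖ ≤ ‖f‖ * ‖g‖ := by
        refine Filter.Eventually.of_forall fun x => ?_
        rw [norm_mul]
        exact mul_le_mul (f.norm_coe_le_norm x) (g.norm_coe_le_norm x) (norm_nonneg _)
          (norm_nonneg _)
      have h2 := norm_integral_le_of_norm_le_const h1
      refine h2.trans (le_of_eq ?_)
      rw [Measure.real]
      ring)

theorem intL_apply (g f : C(Γ, ℂ)) : intL μ g f = ∫ x, f x * g x ∂μ := rfl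

end Haar

/-- A subgroup of continuous characters of a compact group that separates points
contains every continuous character. -/
theorem mem_of_separates (B : Subgroup (Γ →ₜ* Circle))
    (hsep : ∀ x y : Γ, x ≠ y → ∃ χ ∈ B, χ x ≠ χ y) (ψ : Γ →ₜ* Circle) : ψ ∈ B := by
  letI : MeasurableSpace Γ := borel Γ
  haveI : BorelSpace Γ := ⟨rfl⟩
  by_contra hψ
  let μ : Measure Γ := Measure.haar
  have h0 : intL μ (cf ψ⁻¹) = 0 := by
    apply functional_zero B hsep
    intro χ hχ
    rw [intL_apply]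
    have h1 : χ * ψ⁻¹ ≠ 1 := by
      intro h
      apply hψ
      rw [mul_inv_eq_one] at h
      rwa [← h]
    have h2 := integral_char μ (χ * ψ⁻¹) h1
    rw [← h2]
    rfl
  have h1 : intL μ (cf ψ⁻¹) (cf ψ) = 0 := by rw [h0]; rfl
  rw [intL_apply] at h1
  have h2 : ∀ x, cf ψ x * cf ψ⁻¹ x = 1 := by
    intro x
    have h : (cf ψ * cf ψ⁻¹) x = 1 := by
      rw [← cf_mul, mul_inv_cancel, cf_one]; rfl
    exact h
  simp only [h2] at h1
  rw [integral_const] at h1
  have h3 : μ.real Set.univ ≠ 0 := by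
    rw [Measure.real, ENNReal.toReal_ne_zero]
    exact ⟨(isOpen_univ.measure_pos μ Set.univ_nonempty).ne', measure_ne_top μ _⟩
  simp at h1
  exact h3 (by simpa [Measure.real] using h1)

theorem intL_one_one [MeasurableSpace Γ] [BorelSpace Γ] (μ : Measure Γ) [μ.IsHaarMeasure] :
    intL μ 1 1 = (μ.real Set.univ : ℂ) := by
  rw [intL_apply]
  simp

theorem haar_real_ne [MeasurableSpace Γ] [BorelSpace Γ] (μ : Measure Γ) [μ.IsHaarMeasure] :
    (μ.real Set.univ : ℂ) ≠ 0 := by
  rw [Complex.ofReal_ne_zero, Measure.real, ENNReal.toReal_ne_zero]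
  exact ⟨(isOpen_univ.measure_pos μ Set.univ_nonempty).ne', measure_ne_top μ _⟩

/-- restriction as continuous linear map -/
noncomputable def restr (K : Subgroup Γ) : C(Γ, ℂ) →L[ℂ] C(K, ℂ) where
  toFun f := f.comp ⟨Subtype.val, continuous_subtype_val⟩
  map_add' _ _ := rfl
  map_smul' _ _ := rfl
  cont := ContinuousMap.continuous_precomp _

/-- A closed subgroup on which no nontrivial member of a separating group of characters
vanishes is everything. -/
theorem eq_top_of_annihilator (B : Subgroup (Γ →ₜ* Circle))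
    (hsep : ∀ x y : Γ, x ≠ y → ∃ χ ∈ B, χ x ≠ χ y) (K : Subgroup Γ)
    (hK : IsClosed (K : Set Γ)) (hann : ∀ χ ∈ B, (∀ x ∈ K, χ x = 1) → χ = 1) : K = ⊤ := by
  letI : MeasurableSpace Γ := borel Γ
  haveI : BorelSpace Γ := ⟨rfl⟩
  letI : MeasurableSpace K := borel K
  haveI : BorelSpace K := ⟨rfl⟩
  haveI : CompactSpace K := isCompact_iff_compactSpace.1 hK.isCompact
  let μ : Measure Γ := Measure.haar
  let ν : Measure K := Measure.haar
  have h0 : ((μ.real Set.univ : ℂ)⁻¹) • intL μ 1 -
      ((ν.real Set.univ : ℂ)⁻¹) • ((intL ν 1).comp (restr K)) = 0 := by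
    apply functional_zero B hsep
    intro χ hχ
    rw [_root_.sub_apply, _root_.smul_apply,
      _root_.smul_apply, ContinuousLinearMap.comp_apply]
    by_cases h1 : χ = 1
    · subst h1
      have h2 : restr K (cf (1 : Γ →ₜ* Circle)) = 1 := by
        rw [cf_one]; rfl
      rw [h2, cf_one, intL_one_one, intL_one_one, smul_eq_mul, smul_eq_mul,
        inv_mul_cancel₀ (haar_real_ne μ), inv_mul_cancel₀ (haar_real_ne ν), sub_self]
    · let χK : K →ₜ* Circle := χ.comp ⟨K.subtype, continuous_subtype_val⟩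
      have hK1 : χK ≠ 1 := by
        intro h
        apply h1
        apply hann χ hχ
        intro x hx
        have := congr_fun (congr_arg (fun f : K →ₜ* Circle => (f : K → Circle)) h) ⟨x, hx⟩
        exact this
      have h2 : intL μ 1 (cf χ) = 0 := by
        rw [intL_apply, ← integral_char μ χ h1]
        congr 1
        ext x
        simp [cf_apply]
      have h3 : intL ν 1 (restr K (cf χ)) = 0 := by
        rw [intL_apply, ← integral_char ν χK hK1]
        congr 1
        ext x
        simp only [ContinuousMap.one_apply, mul_one]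
        rfl
      rw [h2, h3, smul_zero, smul_zero, sub_self]
  by_contra hne
  obtain ⟨p, hp⟩ : ∃ p, p ∉ K := by
    by_contra h
    push Not at h
    exact hne (K.eq_top_iff'.2 h)
  obtain ⟨f, hf0, hf1, hf⟩ := exists_continuous_zero_one_of_isClosed hK
    (isClosed_singleton (x := p)) (Set.disjoint_singleton_right.2 hp)
  let F : C(Γ, ℂ) := ⟨fun x => ((f x : ℝ) : ℂ), Complex.continuous_ofReal.comp f.continuous⟩
  have h1 := congr_arg (fun L : C(Γ, ℂ) →L[ℂ] ℂ => L F) h0
  simp only [_root_.sub_apply, _root_.smul_apply,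
    ContinuousLinearMap.comp_apply, _root_.zero_apply] at h1
  have h2 : intL ν 1 (restr K F) = 0 := by
    rw [intL_apply]
    have : ∀ x : K, restr K F x = 0 := by
      intro x
      change ((f x.1 : ℝ) : ℂ) = 0
      rw [hf0 x.2]; simp
    simp [this]
  rw [h2, smul_zero, sub_zero, smul_eq_mul] at h1
  have h3 : intL μ 1 F = 0 := by
    rcases mul_eq_zero.1 h1 with h | h
    · exact absurd h (inv_ne_zero (haar_real_ne μ))
    · exact h
  rw [intL_apply] at h3
  have h4 : ∫ x, F x * (1 : C(Γ, ℂ)) x ∂μ = ((∫ x, f x ∂μ : ℝ) : ℂ) := by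
    have h5 : ∀ x, F x * (1 : C(Γ, ℂ)) x = ((f x : ℝ) : ℂ) := by
      intro x
      simp [F]
    simp only [h5]
    exact integral_ofReal (𝕜 := ℂ) (f := fun x => f x)
  rw [h4, Complex.ofReal_eq_zero] at h3
  have h5 : 0 < ∫ x, f x ∂μ := by
    refine f.continuous.integral_pos_of_hasCompactSupport_nonneg_nonzero
      (HasCompactSupport.of_compactSpace f) (fun x => (hf x).1) (x := p) ?_
    rw [hf1 rfl]; simp
  exact h5.ne' h3

end Pool.Agent.V11186.LM
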