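import Pool.Agent.V11186.LM.CC
import Pool.Agent.TH264.Bridge.PW

set_option autoImplicit false
set_option linter.style.haveILetI false

/-! Basic facts on characters of compact abelian groups: realization of homomorphisms of the dual,
circle groups, open subgroups. -/

namespace Pool.Agent.V11186.LM

open Topology Filter

section Real

variable {A : Type*} [CommGroup A] [TopologicalSpace A] [IsTopologicalGroup A]

/-- the (compact) group of abstract homomorphisms from the dual to the circle -/
def DD (A : Type*) [CommGroup A] [TopologicalSpace A] :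
    Subgroup ((A →ₜ* Circle) → Circle) where
  carrier := {h | ∀ χ ψ, h (χ * ψ) = h χ * h ψ}
  one_mem' := fun _ _ => by simp
  mul_mem' := by
    intro a b ha hb χ ψ
    have h1 := ha χ ψ
    have h2 := hb χ ψ
    simp only [Pi.mul_apply]
    rw [h1, h2]; exact mul_mul_mul_comm _ _ _ _
  inv_mem' := by
    intro a ha χ ψ
    have h1 := ha χ ψ
    simp only [Pi.inv_apply]
    rw [h1]; exact mul_inv _ _

theorem isClosed_DD : IsClosed (DD A : Set ((A →ₜ* Circle) → Circle)) := by
  have : (DD A : Set ((A →ₜ* Circle) → Circle)) =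
      ⋂ χ, ⋂ ψ, {h | h (χ * ψ) = h χ * h ψ} := by
    ext h
    simp only [Set.mem_iInter, Set.mem_ofPred_eq]
    exact Iff.rfl
  rw [this]
  refine isClosed_iInter fun χ => isClosed_iInter fun ψ => ?_
  have h1 : Continuous fun h : (A →ₜ* Circle) → Circle => h (χ * ψ) := continuous_apply _
  have h2 : Continuous fun h : (A →ₜ* Circle) → Circle => h χ := continuous_apply _
  have h3 : Continuous fun h : (A →ₜ* Circle) → Circle => h ψ := continuous_apply _
  exact isClosed_eq h1 (h2.mul h3)

theorem char_sep [CompactSpace A] [T2Space A] {a : A} (ha : a ≠ 1) :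
    ∃ χ : A →ₜ* Circle, χ a ≠ 1 := by
  obtain ⟨χ, hχ, h⟩ := Pool.Agent.TH264.Bridge.char_sep_mul A a ha
  exact ⟨⟨χ, hχ⟩, h⟩

/-- Every abstract homomorphism from the dual of a compact abelian group to the circle is the
evaluation at a point. -/
theorem realize [CompactSpace A] [T2Space A] (h : (A →ₜ* Circle) → Circle)
    (hh : ∀ χ ψ, h (χ * ψ) = h χ * h ψ) :
    ∃ a : A, ∀ χ : A →ₜ* Circle, χ a = h χ := by
  haveI : CompactSpace (DD A) := isCompact_iff_compactSpace.1 isClosed_DD.isCompact
  let ev : A →* DD A :=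
    { toFun := fun a => ⟨fun χ => χ a, fun χ ψ => rfl⟩
      map_one' := by
        apply Subtype.ext; funext χ; exact map_one χ
      map_mul' := by
        intro a b
        apply Subtype.ext; funext χ; exact map_mul χ a b }
  have hev : Continuous ev := by
    refine Continuous.subtype_mk (f := fun (a : A) (χ : A →ₜ* Circle) => χ a) ?_ _
    exact continuous_pi fun χ => χ.continuous_toFun
  let E : (A →ₜ* Circle) →* (DD A →ₜ* Circle) :=
    { toFun := fun χ =>
        { toFun := fun h => h.1 χ
          map_one' := rfl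
          map_mul' := fun _ _ => rfl
          continuous_toFun := (continuous_apply χ).comp continuous_subtype_val }
      map_one' := by
        apply ContinuousMonoidHom.ext
        intro h
        have h1 := h.2 1 1
        rw [mul_one] at h1
        exact left_eq_mul.1 h1
      map_mul' := by
        intro χ ψ
        apply ContinuousMonoidHom.ext
        intro h
        exact h.2 χ ψ }
  have hcl : IsClosed (ev.range : Set (DD A)) := by
    rw [MonoidHom.coe_range]
    exact (isCompact_range hev).isClosed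
  have htop : ev.range = ⊤ := by
    refine eq_top_of_annihilator E.range ?_ ev.range hcl ?_
    · intro x y hxy
      by_contra hcon
      push Not at hcon
      apply hxy
      apply Subtype.ext
      funext χ
      exact hcon (E χ) ⟨χ, rfl⟩
    · rintro _ ⟨χ, rfl⟩ hχ
      have : χ = 1 := by
        apply ContinuousMonoidHom.ext
        intro a
        exact hχ (ev a) ⟨a, rfl⟩
      rw [this, map_one]
  have h1 : (⟨h, hh⟩ : DD A) ∈ ev.range := by rw [htop]; trivial
  obtain ⟨a, ha⟩ := h1
  exact ⟨a, fun χ => congrFun (congrArg Subtype.val ha) χ⟩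

end Real

section Circ

theorem circle_nss (z : Circle) (h : ∀ n : ℕ, 0 < ((z ^ n : Circle) : ℂ).re) : z = 1 := by
  have hn : ∀ w : Circle, (w : ℂ).re ^ 2 + (w : ℂ).im ^ 2 = 1 := by
    intro w
    have h1 : Complex.normSq (w : ℂ) = 1 := Circle.normSq_coe w
    rw [Complex.normSq_apply] at h1
    nlinarith
  have hle : ∀ w : Circle, (w : ℂ).re ≤ 1 := fun w => by nlinarith [hn w, sq_nonneg (w : ℂ).im]
  have key : ∀ k : ℕ, 2 ^ k * (1 - (z : ℂ).re) ≤ 1 - ((z ^ (2 ^ k) : Circle) : ℂ).re := by
    intro k
    induction k with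
    | zero => simp
    | succ k ih =>
      have e1 : (z ^ (2 ^ (k + 1)) : Circle) = (z ^ (2 ^ k)) * (z ^ (2 ^ k)) := by
        rw [← pow_add]; congr 1; ring
      rw [e1, Circle.coe_mul, Complex.mul_re]
      have h1 := hn (z ^ (2 ^ k))
      have h2 := h (2 ^ k)
      have h3 := hle (z ^ (2 ^ k))
      have h4 : 2 ^ (k + 1) * (1 - (z : ℂ).re) = 2 * (2 ^ k * (1 - (z : ℂ).re)) := by ring
      rw [h4]
      nlinarith [mul_nonneg h2.le (sub_nonneg.2 h3)]
  have h0 : 1 - (z : ℂ).re ≤ 0 := by
    by_contra hcon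
    push Not at hcon
    obtain ⟨k, hk⟩ := pow_unbounded_of_one_lt (1 / (1 - (z : ℂ).re)) (one_lt_two (α := ℝ))
    have h1 := key k
    have h2 := h (2 ^ k)
    rw [div_lt_iff₀ hcon] at hk
    linarith
  have h1 : (z : ℂ).re = 1 := le_antisymm (hle z) (by linarith)
  have h2 : (z : ℂ).im = 0 := by
    have := hn z
    rw [h1] at this
    nlinarith
  apply Circle.ext
  apply Complex.ext
  · rw [h1]; simp
  · rw [h2]; simp

theorem finite_roots {n : ℕ} (hn : 0 < n) : {z : Circle | z ^ n = 1}.Finite := by
  have h2 : ((Polynomial.nthRootsFinset n (1 : ℂ) : Finset ℂ) : Set ℂ).Finite :=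
    Finset.finite_toSet _
  refine Set.Finite.of_injOn (f := fun z : Circle => (z : ℂ)) ?_ ?_ h2
  · intro z hz
    have hz' : z ^ n = 1 := hz
    show (z : ℂ) ∈ ((Polynomial.nthRootsFinset n (1 : ℂ) : Finset ℂ) : Set ℂ)
    rw [Finset.mem_coe, Polynomial.mem_nthRootsFinset hn, ← Circle.coe_pow, hz', Circle.coe_one]
  · exact fun a _ b _ h => Circle.ext h

theorem conn_const {X : Type*} [TopologicalSpace X] {S : Set X} (hS : IsPreconnected S)
    {f : X → Circle} (hf : ContinuousOn f S) {n : ℕ} (hn : 0 < n)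
    (h : ∀ x ∈ S, f x ^ n = 1) {x y : X} (hx : x ∈ S) (hy : y ∈ S) : f x = f y := by
  have h1 : IsPreconnected (f '' S) := hS.image f hf
  have h2 : (f '' S).Countable := ((finite_roots hn).subset (by
    rintro _ ⟨a, ha, rfl⟩; exact h a ha)).countable
  exact (h2.isTotallyDisconnected _ subset_rfl h1) ⟨x, hx, rfl⟩ ⟨y, hy, rfl⟩

end Circ

section Grp

variable {X : Type*} [Group X] [TopologicalSpace X] [IsTopologicalGroup X] [CompactSpace X]
  [T2Space X]

theorem exists_open_subgroup {O : Set X} (hO : IsOpen O) (hc : connectedComponent (1 : X) ⊆ O) :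
    ∃ H : Subgroup X, IsOpen (H : Set X) ∧ (H : Set X) ⊆ O := by
  rw [connectedComponent_eq_iInter_isClopen] at hc
  haveI : Nonempty {s : Set X // IsClopen s ∧ (1 : X) ∈ s} := ⟨⟨Set.univ, isClopen_univ, trivial⟩⟩
  obtain ⟨⟨s, hs, h1⟩, hsO⟩ := exists_subset_nhds_of_compactSpace
    (V := fun s : {s : Set X // IsClopen s ∧ (1 : X) ∈ s} => (s : Set X))
    (by
      rintro ⟨s, hs, h1⟩ ⟨t, ht, h2⟩
      exact ⟨⟨s ∩ t, hs.inter ht, h1, h2⟩, Set.inter_subset_left, Set.inter_subset_right⟩)
    (fun s => s.2.1.1) (fun x hx => hO.mem_nhds (hc hx))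
  obtain ⟨H, hH⟩ := IsTopologicalGroup.exist_openSubgroup_sub_clopen_nhds_of_one hs h1
  exact ⟨H, H.isOpen', hH.trans hsO⟩

theorem index_ne_zero {H : Subgroup X} (hH : IsOpen (H : Set X)) : H.index ≠ 0 := by
  haveI : Finite (X ⧸ H) := Subgroup.quotient_finite_of_isOpen H hH
  exact Subgroup.index_ne_zero_of_finite

end Grp

section Ab

variable {A : Type*} [CommGroup A] [TopologicalSpace A] [IsTopologicalGroup A] [CompactSpace A]
  [T2Space A]

omit [T2Space A] in
/-- a hom into the circle with positive real part on an open subgroup has finite order -/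
theorem finite_order_of_pos {H : Subgroup A} (hH : IsOpen (H : Set A)) (χ : A →* Circle)
    (hp : ∀ x ∈ H, 0 < (χ x : ℂ).re) : ∃ n : ℕ, 0 < n ∧ ∀ x, χ x ^ n = 1 := by
  haveI : Finite (A ⧸ H) := Subgroup.quotient_finite_of_isOpen H hH
  refine ⟨H.index, Nat.pos_of_ne_zero Subgroup.index_ne_zero_of_finite, fun x => ?_⟩
  rw [← map_pow]
  apply circle_nss
  intro n
  rw [← map_pow]
  exact hp _ (H.pow_mem (H.pow_index_mem x) n)

theorem finite_order_of_td (hA : connectedComponent (1 : A) ⊆ {1}) (χ : A →ₜ* Circle) :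
    ∃ n : ℕ, 0 < n ∧ ∀ x, χ x ^ n = 1 := by
  have hc : Continuous fun x : A => (χ x : ℂ).re :=
    Complex.continuous_re.comp (continuous_subtype_val.comp χ.continuous_toFun)
  obtain ⟨H, hH, hHO⟩ := exists_open_subgroup (X := A) (O := {x | 0 < (χ x : ℂ).re})
    (isOpen_lt continuous_const hc) (by
      refine hA.trans ?_
      rintro _ rfl
      show 0 < ((χ 1 : Circle) : ℂ).re
      rw [map_one]; simp)
  exact finite_order_of_pos hH χ.toMonoidHom fun x hx => hHO hx

theorem divisible_of_conn [PreconnectedSpace A] {n : ℕ} (hn : 0 < n) (a : A) :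
    ∃ b : A, b ^ n = a := by
  let P : A →* A := powMonoidHom n
  have hP : Continuous P := continuous_pow n
  have hcl : IsClosed (P.range : Set A) := by
    rw [MonoidHom.coe_range]
    exact (isCompact_range hP).isClosed
  by_contra hcon
  have ha : a ∉ P.range := fun ⟨b, hb⟩ => hcon ⟨b, hb⟩
  haveI : IsClosed (P.range : Set A) := hcl
  haveI : T2Space (A ⧸ P.range) := inferInstance
  have ha' : (a : A ⧸ P.range) ≠ 1 := fun h => ha ((QuotientGroup.eq_one_iff a).1 h)
  obtain ⟨χ, hχ⟩ := char_sep ha'
  have h1 : Continuous fun x : A => χ (x : A ⧸ P.range) :=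
    χ.continuous_toFun.comp QuotientGroup.continuous_mk
  have h2 := conn_const (isPreconnected_univ (α := A)) (f := fun x : A => χ (x : A ⧸ P.range))
    h1.continuousOn hn (by
      intro x _
      rw [← map_pow]
      have : ((x : A ⧸ P.range)) ^ n = 1 := by
        rw [← QuotientGroup.mk_pow, QuotientGroup.eq_one_iff]
        exact ⟨x, rfl⟩
      rw [this, map_one]) (Set.mem_univ a) (Set.mem_univ 1)
  apply hχ
  rw [h2]
  exact map_one χ

omit [IsTopologicalGroup A] [CompactSpace A] [T2Space A] in
theorem char_torsionfree [PreconnectedSpace A] {n : ℕ} (hn : 0 < n) (χ : A →ₜ* Circle)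
    (h : χ ^ n = 1) : χ = 1 := by
  apply ContinuousMonoidHom.ext
  intro x
  have h2 := conn_const (isPreconnected_univ (α := A)) (f := fun x : A => χ x)
    (χ.continuous_toFun.continuousOn) hn (by
      intro x _
      let E : (A →ₜ* Circle) →* Circle :=
        { toFun := fun χ => χ x, map_one' := rfl, map_mul' := fun _ _ => rfl }
      have h3 : E (χ ^ n) = E χ ^ n := map_pow E χ n
      rw [h, map_one] at h3
      exact h3.symm) (Set.mem_univ x) (Set.mem_univ 1)
  rw [h2]
  exact map_one χ

end Ab

end Pool.Agent.V11186.LM
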