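import Pool.Agent.V11186.LM.ThmB

set_option autoImplicit false
set_option linter.style.haveILetI false

/-! Assembly for MP_0bb520. -/

namespace Pool.Agent.V11186.LM

open Topology Filter
open scoped Pointwise

theorem main_sub {K : Type*} [Group K] [TopologicalSpace K] [IsTopologicalGroup K] [CompactSpace K]
    [T2Space K] (S : Subgroup K) (hd : Dense (S : Set K)) (hs : SC (S : Set K))
    (hK : ∃ n, Subgroup.upperCentralSeries K n = ⊤)
    (htd : ∀ D : Set K, IsPreconnected D → (1 : K) ∈ D → D ⊆ S → D ⊆ {1})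
    (hess : ∃ V ∈ 𝓝 (1 : K), ∀ N : Subgroup K, N.Normal → IsClosed (N : Set K) →
      (N : Set K) ⊆ V → (∀ x ∈ N, x ∈ S → x = 1) → ∀ x ∈ N, x = 1) :
    connectedComponent (1 : K) ⊆ {1} := by
  let A : Subgroup K := Subgroup.connectedComponentOfOne K
  have hAcen : ∀ a ∈ A, ∀ x : K, x * a = a * x := fun a ha x => component_le_center hK ha x
  letI iA : CommGroup A :=
    { (inferInstance : Group A) with
      mul_comm := fun a b => Subtype.ext (hAcen b b.2 a) }
  have hAcl : IsClosed (A : Set K) := isClosed_connectedComponent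
  have hApre : IsPreconnected (A : Set K) := isPreconnected_connectedComponent
  haveI : CompactSpace A := isCompact_iff_compactSpace.1 hAcl.isCompact
  haveI : PreconnectedSpace A := Subtype.preconnectedSpace hApre
  obtain ⟨V, hV, hess⟩ := hess
  have hcount : Countable (A →ₜ* Circle) := by
    refine thmB (S.comap A.subtype) ?_ ?_ ?_
    · intro u hu k hk
      exact hs (fun n => (u n : K)) hu k ((continuous_subtype_val.tendsto k).comp hk)
    · intro D hD h1 hDS x hx
      have h2 := htd ((Subtype.val : A → K) '' D) (hD.image _ continuous_subtype_val.continuousOn)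
        ⟨1, h1, rfl⟩ (by rintro _ ⟨z, hz, rfl⟩; exact hDS hz) ⟨x, hx, rfl⟩
      exact Subtype.ext h2
    · refine ⟨Subtype.val ⁻¹' V, continuous_subtype_val.continuousAt.preimage_mem_nhds hV, ?_⟩
      intro N hNcl hNV hNS x hx
      have h2 := hess (N.map A.subtype) ⟨by
          rintro _ ⟨z, hz, rfl⟩ g
          refine ⟨z, hz, ?_⟩
          show (z : K) = g * z * g⁻¹
          rw [hAcen z z.2 g, mul_inv_cancel_right]⟩
        (by
          rw [Subgroup.coe_map]
          exact hAcl.isClosedEmbedding_subtypeVal.isClosedMap _ hNcl)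
        (by
          rintro _ ⟨z, hz, rfl⟩
          exact hNV hz)
        (by
          rintro _ ⟨z, hz, rfl⟩ hzS
          exact congrArg Subtype.val (hNS z hz hzS)) x ⟨x, hx, rfl⟩
      exact Subtype.ext h2
  obtain ⟨f, hf⟩ := exists_surjective_nat (A →ₜ* Circle)
  let F : C((connectedComponent (1 : K) : Set K), ℕ → ℝ) :=
    ⟨fun a n => if n % 2 = 0 then ((f (n / 2) a : Circle) : ℂ).re
      else ((f (n / 2) a : Circle) : ℂ).im, by
        refine continuous_pi fun n => ?_
        have hc : Continuous fun a : A => ((f (n / 2) a : Circle) : ℂ) :=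
          continuous_subtype_val.comp (f (n / 2)).continuous_toFun
        by_cases h : n % 2 = 0
        · simp only [h, if_true]
          exact Complex.continuous_re.comp hc
        · simp only [h, if_false]
          exact Complex.continuous_im.comp hc⟩
  have hF : ∀ a n, F a n = if n % 2 = 0 then ((f (n / 2) a : Circle) : ℂ).re
      else ((f (n / 2) a : Circle) : ℂ).im := fun _ _ => rfl
  have hFi : Function.Injective F := by
    intro (x : A) (y : A) hxy
    by_contra hne
    have h1 : x * y⁻¹ ≠ 1 := by
      intro h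
      have h' : x = y := mul_inv_eq_one.1 h
      exact hne h'
    obtain ⟨χ, hχ⟩ := char_sep h1
    obtain ⟨j, rfl⟩ := hf χ
    apply hχ
    have h2 : f j x = f j y := by
      apply Circle.ext
      apply Complex.ext
      · have h3 := congrFun hxy (2 * j)
        rw [hF, hF, if_pos (by omega), if_pos (by omega)] at h3
        have : 2 * j / 2 = j := by omega
        rw [this] at h3
        exact h3
      · have h3 := congrFun hxy (2 * j + 1)
        rw [hF, hF, if_neg (by omega), if_neg (by omega)] at h3
        have : (2 * j + 1) / 2 = j := by omega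
        rw [this] at h3
        exact h3
    rw [map_mul, map_inv, h2, mul_inv_cancel]
  have hCS := thmA S hd hs F hFi (by
    intro c hc n hn
    obtain ⟨b, hb⟩ := divisible_of_conn (A := A) hn ⟨c, hc⟩
    exact ⟨b, b.2, congrArg Subtype.val hb⟩)
  exact htd _ isPreconnected_connectedComponent mem_connectedComponent hCS

/-- every Cauchy sequence (for the two-sided uniformity) converges -/
def SeqComplete (G : Type*) [Group G] [TopologicalSpace G] : Prop :=
  ∀ u : ℕ → G, Tendsto (fun p : ℕ × ℕ => (u p.1)⁻¹ * u p.2) atTop (𝓝 1) →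
    Tendsto (fun p : ℕ × ℕ => u p.1 * (u p.2)⁻¹) atTop (𝓝 1) → ∃ g, Tendsto u atTop (𝓝 g)

/-- local minimality -/
def LocMinimal (G : Type*) [Group G] [t : TopologicalSpace G] : Prop :=
  ∃ U ∈ 𝓝 (1 : G), ∀ t' : TopologicalSpace G, @IsTopologicalGroup G t' _ → @T2Space G t' →
    t ≤ t' → U ∈ @nhds G t' 1 → t' = t

theorem main {G : Type*} [Group G] [t : TopologicalSpace G] [IsTopologicalGroup G]
    [Group.IsNilpotent G] {K : Type*} [Group K] [TopologicalSpace K] [IsTopologicalGroup K]
    [CompactSpace K] [T2Space K] (ι : G →* K) (hι : IsEmbedding ι) (hd : DenseRange ι)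
    (hseq : SeqComplete G) (hmin : LocMinimal G) (hc : connectedComponent (1 : G) = {1}) :
    connectedComponent (1 : K) = {1} := by
  refine Set.Subset.antisymm ?_ (Set.singleton_subset_iff.2 mem_connectedComponent)
  refine main_sub ι.range ?_ ?_ (nilp_dense ι hd) ?_ ?_
  · intro x
    rw [MonoidHom.coe_range]
    exact hd x
  · intro u hu k hk
    choose g hg using hu
    have h1 : Tendsto (fun p : ℕ × ℕ => u p.1) atTop (𝓝 k) := by
      rw [← prod_atTop_atTop_eq]; exact hk.comp tendsto_fst
    have h2 : Tendsto (fun p : ℕ × ℕ => u p.2) atTop (𝓝 k) := by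
      rw [← prod_atTop_atTop_eq]; exact hk.comp tendsto_snd
    have h3 := h1.inv.mul h2
    have h4 := h1.mul h2.inv
    rw [inv_mul_cancel] at h3
    rw [mul_inv_cancel] at h4
    obtain ⟨g0, hg0⟩ := hseq g (by
        rw [hι.tendsto_nhds_iff, map_one]
        refine h3.congr fun p => ?_
        show (u p.1)⁻¹ * u p.2 = ι ((g p.1)⁻¹ * g p.2)
        rw [map_mul, map_inv, hg, hg]) (by
        rw [hι.tendsto_nhds_iff, map_one]
        refine h4.congr fun p => ?_
        show u p.1 * (u p.2)⁻¹ = ι (g p.1 * (g p.2)⁻¹)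
        rw [map_mul, map_inv, hg, hg])
    have h5 : Tendsto u atTop (𝓝 (ι g0)) := by
      refine ((hι.continuous.tendsto g0).comp hg0).congr fun n => ?_
      exact hg n
    exact ⟨g0, tendsto_nhds_unique h5 hk⟩
  · intro D hD h1 hDS
    have hDS' : D ⊆ Set.range ι := hDS
    have h2 : IsPreconnected (ι ⁻¹' D) := by
      rw [← hι.isInducing.isPreconnected_image, Set.image_preimage_eq_of_subset hDS']
      exact hD
    have h3 : ι ⁻¹' D ⊆ connectedComponent (1 : G) :=
      h2.subset_connectedComponent (by show ι 1 ∈ D; rw [map_one]; exact h1)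
    rw [hc] at h3
    intro x hx
    obtain ⟨g, rfl⟩ := hDS' hx
    have h4 : g = 1 := h3 hx
    rw [h4, map_one]; rfl
  · obtain ⟨U, hU, hmin⟩ := hmin
    rw [hι.isInducing.nhds_eq_comap, map_one, mem_comap] at hU
    obtain ⟨W, hW, hWU⟩ := hU
    obtain ⟨V, hVo, hV1, hVW⟩ := exists_open_nhds_one_mul_subset hW
    refine ⟨V, hVo.mem_nhds hV1, fun N hN hNcl hNV hNS => ?_⟩
    haveI := hN
    haveI := hNcl
    haveI : T2Space (K ⧸ N) := inferInstance
    let π : G →* K ⧸ N := (QuotientGroup.mk' N).comp ι
    have hπc : Continuous π := QuotientGroup.continuous_mk.comp hι.continuous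
    have hπi : Function.Injective π := by
      rw [injective_iff_map_eq_one]
      intro g hg
      have h1 : ι g ∈ N := (QuotientGroup.eq_one_iff _).1 hg
      have h2 := hNS _ h1 ⟨g, rfl⟩
      rw [← map_one ι] at h2
      exact hι.injective h2
    have e1 : comap ι (𝓝 (1 : K)) = 𝓝 (1 : G) := by
      rw [hι.isInducing.nhds_eq_comap, map_one]
    have e6 : ∀ k : K, (comap ι (𝓝 k)).NeBot := (IsDenseInducing.mk hι.isInducing hd).comap_nhds_neBot
    let t' : TopologicalSpace G := TopologicalSpace.induced π inferInstance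
    have h1 : @IsTopologicalGroup G t' _ := topologicalGroup_induced π
    have h2 : @T2Space G t' := by
      letI : TopologicalSpace G := t'
      exact T2Space.of_injective_continuous hπi continuous_induced_dom
    have h3 : t ≤ t' := continuous_iff_le_induced.1 hπc
    have hn : @nhds G t' 1 = comap π (𝓝 1) := by
      rw [nhds_induced, map_one]
    have h4 : U ∈ @nhds G t' 1 := by
      rw [hn, mem_comap]
      refine ⟨((↑) : K → K ⧸ N) '' V,
        (QuotientGroup.isOpenMap_coe V hVo).mem_nhds ⟨1, hV1, rfl⟩, ?_⟩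
      rintro g ⟨v, hv, hvg⟩
      apply hWU
      have h5 : v⁻¹ * ι g ∈ N := QuotientGroup.eq.1 hvg
      have h6 : v * (v⁻¹ * ι g) ∈ V * V := Set.mul_mem_mul hv (hNV h5)
      rw [mul_inv_cancel_left] at h6
      exact hVW h6
    have h5 := hmin t' h1 h2 h3 h4
    intro k hk
    have h6 : (comap ι (𝓝 k)).NeBot := e6 k
    have h7 : comap ι (𝓝 k) ≤ comap ι (𝓝 1) := by
      rw [e1, ← h5, hn]
      have hk1 : ((k : K) : K ⧸ N) = 1 := (QuotientGroup.eq_one_iff _).2 hk
      rw [← tendsto_iff_comap, ← hk1]
      exact ((QuotientGroup.continuous_mk (N := N)).tendsto k).comp tendsto_comap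
    have h8 : Tendsto ι (comap ι (𝓝 k)) (𝓝 1) := tendsto_iff_comap.2 h7
    exact tendsto_nhds_unique tendsto_comap h8

end Pool.Agent.V11186.LM
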