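import Pool.Agent.V11186.LM.Dual

set_option autoImplicit false
set_option linter.style.haveILetI false

/-! The component of a compact nilpotent group is central; dense nilpotent subgroups. -/

namespace Pool.Agent.V11186.LM

open Topology Filter
open scoped commutatorElement

section Comm

variable {K : Type*} [Group K]

theorem comm_mul_left {d e x : K} (h : ⁅e, x⁆ ∈ Subgroup.center K) :
    ⁅d * e, x⁆ = ⁅d, x⁆ * ⁅e, x⁆ := by
  have h1 : d * ⁅e, x⁆ = ⁅e, x⁆ * d := Subgroup.mem_center_iff.1 h d
  calc ⁅d * e, x⁆ = d * ⁅e, x⁆ * (x * d⁻¹ * x⁻¹) := by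
        rw [commutatorElement_def, commutatorElement_def]; group
    _ = ⁅e, x⁆ * ⁅d, x⁆ := by rw [h1, commutatorElement_def d x]; group
    _ = ⁅d, x⁆ * ⁅e, x⁆ := (Subgroup.mem_center_iff.1 h _).symm

theorem comm_mul_right {d x y : K} (h : ⁅d, y⁆ ∈ Subgroup.center K) :
    ⁅d, x * y⁆ = ⁅d, x⁆ * ⁅d, y⁆ := by
  have h1 : d * x * d⁻¹ * ⁅d, y⁆ = ⁅d, y⁆ * (d * x * d⁻¹) := Subgroup.mem_center_iff.1 h _
  calc ⁅d, x * y⁆ = d * x * d⁻¹ * ⁅d, y⁆ * x⁻¹ := by
        rw [commutatorElement_def, commutatorElement_def]; group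
    _ = ⁅d, y⁆ * ⁅d, x⁆ := by rw [h1, commutatorElement_def d x]; group
    _ = ⁅d, x⁆ * ⁅d, y⁆ := (Subgroup.mem_center_iff.1 h _).symm

end Comm

section Top

variable {K : Type*} [Group K] [TopologicalSpace K] [IsTopologicalGroup K] [T2Space K]

theorem isClosed_center' : IsClosed (Subgroup.center K : Set K) := by
  have : (Subgroup.center K : Set K) = ⋂ g : K, {z | g * z = z * g} := by
    ext z
    simp only [Set.mem_iInter, Set.mem_ofPred_eq, SetLike.mem_coe]
    exact Subgroup.mem_center_iff
  rw [this]
  exact isClosed_iInter fun g => isClosed_eq (by fun_prop) (by fun_prop)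

theorem isClosed_upper (n : ℕ) : IsClosed (Subgroup.upperCentralSeries K n : Set K) := by
  induction n with
  | zero =>
    rw [Subgroup.upperCentralSeries_zero, Subgroup.coe_bot]
    exact isClosed_singleton
  | succ n ih =>
    have : (Subgroup.upperCentralSeries K (n + 1) : Set K) =
        ⋂ y : K, (fun x => ⁅x, y⁆) ⁻¹' (Subgroup.upperCentralSeries K n : Set K) := by
      ext z
      simp only [Set.mem_iInter, Set.mem_preimage, SetLike.mem_coe]
      exact Subgroup.mem_upperCentralSeries_succ_iff
    rw [this]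
    refine isClosed_iInter fun y => ih.preimage ?_
    have : (fun x : K => ⁅x, y⁆) = fun x => x * y * x⁻¹ * y⁻¹ := by
      funext x; exact commutatorElement_def x y
    rw [this]
    fun_prop

theorem cont_comm : Continuous fun p : K × K => ⁅p.1, p.2⁆ := by
  have : (fun p : K × K => ⁅p.1, p.2⁆) = fun p => p.1 * p.2 * p.1⁻¹ * p.2⁻¹ := by
    funext x; exact commutatorElement_def _ _
  rw [this]
  fun_prop

theorem upper_dense {G : Type*} [Group G] (ι : G →* K) (hd : DenseRange ι) (n : ℕ) (x : G)
    (hx : x ∈ Subgroup.upperCentralSeries G n) : ι x ∈ Subgroup.upperCentralSeries K n := by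
  induction n generalizing x with
  | zero =>
    rw [Subgroup.upperCentralSeries_zero, Subgroup.mem_bot] at hx ⊢
    rw [hx, map_one]
  | succ n ih =>
    rw [Subgroup.mem_upperCentralSeries_succ_iff] at hx ⊢
    intro y
    have hcl : IsClosed {y : K | ⁅ι x, y⁆ ∈ Subgroup.upperCentralSeries K n} :=
      (isClosed_upper n).preimage (cont_comm.comp (Continuous.prodMk_right (ι x)))
    refine hd.induction_on (p := fun y => ⁅ι x, y⁆ ∈ Subgroup.upperCentralSeries K n) y hcl ?_
    intro g
    rw [← map_commutatorElement]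
    exact ih _ (hx g)

theorem nilp_dense {G : Type*} [Group G] [Group.IsNilpotent G] (ι : G →* K)
    (hd : DenseRange ι) : ∃ n, Subgroup.upperCentralSeries K n = ⊤ := by
  obtain ⟨n, hn⟩ := Group.IsNilpotent.nilpotent G
  refine ⟨n, ?_⟩
  rw [Subgroup.eq_top_iff']
  intro y
  refine hd.induction_on (p := fun y => y ∈ Subgroup.upperCentralSeries K n) y
    (isClosed_upper n) ?_
  intro g
  exact upper_dense ι hd n g (by rw [hn]; trivial)

theorem conn_central [CompactSpace K] (D : Subgroup K) (hD : IsPreconnected (D : Set K))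
    (hDc : IsCompact (D : Set K)) (h : ∀ d ∈ D, ∀ x : K, ⁅d, x⁆ ∈ Subgroup.center K) :
    ∀ d ∈ D, ∀ x : K, ⁅d, x⁆ = 1 := by
  letI iC : CommGroup (Subgroup.center K) :=
    { (inferInstance : Group (Subgroup.center K)) with
      mul_comm := fun a b => Subtype.ext (Subgroup.mem_center_iff.1 b.2 a) }
  haveI : CompactSpace (Subgroup.center K) :=
    isCompact_iff_compactSpace.1 isClosed_center'.isCompact
  haveI : CompactSpace D := isCompact_iff_compactSpace.1 hDc
  haveI : PreconnectedSpace D := Subtype.preconnectedSpace hD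
  let c : D → K → Subgroup.center K := fun d x => ⟨⁅(d : K), x⁆, h d d.2 x⟩
  have hc : Continuous fun p : K × D => c p.2 p.1 := by
    refine Continuous.subtype_mk (f := fun p : K × D => ⁅(p.2 : K), p.1⁆) ?_ _
    exact cont_comm.comp ((continuous_subtype_val.comp continuous_snd).prodMk continuous_fst)
  have c_ml : ∀ d e x, c (d * e) x = c d x * c e x := fun d e x =>
    Subtype.ext (comm_mul_left (h e e.2 x))
  have c_mr : ∀ d x y, c d (x * y) = c d x * c d y := fun d x y =>
    Subtype.ext (comm_mul_right (h d d.2 y))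
  have c_1l : ∀ x, c 1 x = 1 := fun x => Subtype.ext (by
    show ⁅((1 : D) : K), x⁆ = 1
    rw [Subgroup.coe_one, commutatorElement_one_left])
  have c_1r : ∀ d, c d 1 = 1 := fun d => Subtype.ext (by
    show ⁅(d : K), (1 : K)⁆ = 1
    rw [commutatorElement_one_right])
  intro d hd x
  by_contra hne
  have hne' : c ⟨d, hd⟩ x ≠ 1 := fun e => hne (congrArg Subtype.val e)
  obtain ⟨χ, hχ⟩ := char_sep (A := Subgroup.center K) hne'
  let g : K → D → Circle := fun x d => χ (c d x)
  have hg : Continuous fun p : K × D => g p.1 p.2 := χ.continuous_toFun.comp hc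
  have gl : ∀ x, ∀ d e, g x (d * e) = g x d * g x e := fun x d e => by
    show χ (c (d * e) x) = _
    rw [c_ml, map_mul]
  have gr : ∀ x y, ∀ d, g (x * y) d = g x d * g y d := fun x y d => by
    show χ (c d (x * y)) = _
    rw [c_mr, map_mul]
  have g1 : ∀ d, g 1 d = 1 := fun d => by
    show χ (c d 1) = _
    rw [c_1r, map_one]
  have g1' : ∀ x, g x 1 = 1 := fun x => by
    show χ (c 1 x) = _
    rw [c_1l, map_one]
  let S : Subgroup K :=
    { carrier := {x | ∀ d, g x d = 1}
      one_mem' := g1
      mul_mem' := by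
        intro a b ha hb d
        rw [gr, ha d, hb d, one_mul]
      inv_mem' := by
        intro a ha d
        have h1 := gr a⁻¹ a d
        rw [inv_mul_cancel, g1, ha d, mul_one] at h1
        exact h1.symm }
  have hSo : IsOpen (S : Set K) := by
    apply Subgroup.isOpen_of_mem_nhds S (g := 1)
    have hre : Continuous fun p : K × D => ((g p.1 p.2 : Circle) : ℂ).re :=
      Complex.continuous_re.comp (continuous_subtype_val.comp hg)
    obtain ⟨u, v, hu, -, h1u, hv, huv⟩ := generalized_tube_lemma
      (isCompact_singleton (x := (1 : K))) (isCompact_univ (X := D))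
      (isOpen_lt continuous_const hre : IsOpen {p : K × D | (0:ℝ) < ((g p.1 p.2 : Circle) : ℂ).re})
      (by
        rintro ⟨a, b⟩ ⟨ha, -⟩
        rw [Set.mem_singleton_iff] at ha
        subst ha
        show (0:ℝ) < ((g 1 b : Circle) : ℂ).re
        rw [g1]; simp)
    refine mem_of_superset (hu.mem_nhds (h1u rfl)) ?_
    intro y hy d
    apply circle_nss
    intro n
    have h2 : g y d ^ n = g y (d ^ n) := by
      induction n with
      | zero => rw [pow_zero, pow_zero, g1']
      | succ n ih => rw [pow_succ, pow_succ, gl, ih]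
    rw [h2]
    exact huv (show (y, d ^ n) ∈ u ×ˢ v from ⟨hy, hv trivial⟩)
  obtain ⟨n, hn, -, hxn⟩ := S.exists_pow_mem_of_index_ne_zero (index_ne_zero hSo) x
  have h3 : ∀ d, g x d ^ n = 1 := by
    intro d
    have h4 : ∀ n : ℕ, g x d ^ n = g (x ^ n) d := by
      intro n
      induction n with
      | zero => rw [pow_zero, pow_zero, g1]
      | succ n ih => rw [pow_succ, pow_succ, gr, ih]
    rw [h4]
    exact hxn d
  have h5 := conn_const (isPreconnected_univ (α := D)) (f := fun d => g x d)
    (hg.comp (Continuous.prodMk_right x)).continuousOn hn (fun d _ => h3 d)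
    (Set.mem_univ ⟨d, hd⟩) (Set.mem_univ 1)
  apply hχ
  show g x ⟨d, hd⟩ = 1
  rw [← g1' x]
  exact h5

theorem component_le_center [CompactSpace K] (hK : ∃ n, Subgroup.upperCentralSeries K n = ⊤)
    {c : K} (hc : c ∈ connectedComponent (1 : K)) (x : K) : x * c = c * x := by
  let C : Subgroup K := Subgroup.connectedComponentOfOne K
  have hCcl : IsClosed (C : Set K) := isClosed_connectedComponent
  have hCp : IsPreconnected (C : Set K) := isPreconnected_connectedComponent
  have step : ∀ n, C ≤ Subgroup.upperCentralSeries K (n + 2) →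
      C ≤ Subgroup.upperCentralSeries K (n + 1) := by
    intro n hn
    let N := Subgroup.upperCentralSeries K n
    haveI hNc : IsClosed (N : Set K) := isClosed_upper n
    haveI : T2Space (K ⧸ N) := inferInstance
    let π := QuotientGroup.mk' N
    have hπ : Continuous π := QuotientGroup.continuous_mk
    have h1 := conn_central (C.map π) (by
      rw [Subgroup.coe_map]; exact hCp.image _ hπ.continuousOn) (by
      rw [Subgroup.coe_map]; exact hCcl.isCompact.image hπ) (by
      rintro _ ⟨d, hd, rfl⟩ x
      obtain ⟨x, rfl⟩ := QuotientGroup.mk'_surjective N x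
      rw [Subgroup.mem_center_iff]
      intro y
      obtain ⟨y, rfl⟩ := QuotientGroup.mk'_surjective N y
      have h2 : ⁅⁅d, x⁆, y⁆ ∈ N :=
        Subgroup.mem_upperCentralSeries_succ_iff.1
          (Subgroup.mem_upperCentralSeries_succ_iff.1 (hn hd) x) y
      have h3 : π ⁅⁅d, x⁆, y⁆ = 1 := (QuotientGroup.eq_one_iff _).2 h2
      rw [map_commutatorElement, map_commutatorElement, commutatorElement_eq_one_iff_mul_comm]
        at h3
      exact h3.symm)
    intro d hd
    rw [Subgroup.mem_upperCentralSeries_succ_iff]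
    intro x
    have h4 := h1 (π d) ⟨d, hd, rfl⟩ (π x)
    rw [← map_commutatorElement] at h4
    exact (QuotientGroup.eq_one_iff _).1 h4
  have down : ∀ n, C ≤ Subgroup.upperCentralSeries K (n + 1) →
      C ≤ Subgroup.upperCentralSeries K 1 := by
    intro n
    induction n with
    | zero => exact fun h => h
    | succ n ih => exact fun h => ih (step n h)
  obtain ⟨n, hn⟩ := hK
  have h1 : C ≤ Subgroup.upperCentralSeries K 1 := by
    apply down n
    have : Subgroup.upperCentralSeries K n ≤ Subgroup.upperCentralSeries K (n + 1) :=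
      Subgroup.upperCentralSeries_mono K (Nat.le_succ n)
    rw [hn] at this
    exact le_top.trans this
  rw [Subgroup.upperCentralSeries_one] at h1
  exact Subgroup.mem_center_iff.1 (h1 hc) x

end Top

end Pool.Agent.V11186.LM
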