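import Pool.Agent.V11186.LM.Nilp

set_option autoImplicit false
set_option linter.style.haveILetI false

/-! A dense sequentially closed subgroup of a compact group contains the component as soon as this
is divisible and metrizable. -/

namespace Pool.Agent.V11186.LM

open Topology Filter

/-- sequentially closed sets -/
def SC {X : Type*} [TopologicalSpace X] (S : Set X) : Prop :=
  ∀ u : ℕ → X, (∀ n, u n ∈ S) → ∀ k, Tendsto u atTop (𝓝 k) → k ∈ S

theorem closed_inter {X Y : Type*} [TopologicalSpace X] [CompactSpace X] [T2Space X]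
    [TopologicalSpace Y] [T2Space Y] [FirstCountableTopology Y]
    {M : Set X} (hM : IsClosed M) {F : M → Y} (hF : Continuous F) (hFi : Function.Injective F)
    {S : Set X} (hs : SC S) : IsClosed (S ∩ M) := by
  haveI : CompactSpace M := isCompact_iff_compactSpace.1 hM.isCompact
  have hemb : IsEmbedding F := (hF.isClosedEmbedding hFi).isEmbedding
  haveI : FirstCountableTopology M := hemb.isInducing.firstCountableTopology
  rw [← closure_subset_iff_isClosed]
  intro z hz
  have hzM : z ∈ M := (closure_mono Set.inter_subset_right).trans hM.closure_subset hz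
  let T : Set M := {c | (c : X) ∈ S}
  have h1 : (⟨z, hzM⟩ : M) ∈ closure T := by
    rw [closure_subtype]
    have : ((↑) '' T : Set X) = S ∩ M := by
      ext x
      constructor
      · rintro ⟨c, hc, rfl⟩
        exact ⟨hc, c.2⟩
      · rintro ⟨h, h'⟩
        exact ⟨⟨x, h'⟩, h, rfl⟩
    rw [this]
    exact hz
  obtain ⟨x, hxT, hx⟩ := mem_closure_iff_seq_limit.1 h1
  have h2 : Tendsto (fun n => (x n : X)) atTop (𝓝 z) := by
    have := (continuous_subtype_val.tendsto (⟨z, hzM⟩ : M)).comp hx
    exact this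
  exact ⟨hs _ hxT z h2, hzM⟩

theorem thmA {K : Type*} [Group K] [TopologicalSpace K] [IsTopologicalGroup K] [CompactSpace K]
    [T2Space K] (S : Subgroup K) (hd : Dense (S : Set K)) (hs : SC (S : Set K))
    (F : C((connectedComponent (1 : K) : Set K), ℕ → ℝ)) (hFi : Function.Injective F)
    (hdiv : ∀ c ∈ connectedComponent (1 : K), ∀ n : ℕ, 0 < n →
      ∃ b ∈ connectedComponent (1 : K), b ^ n = c) :
    connectedComponent (1 : K) ⊆ S := by
  have hCcl : IsClosed (connectedComponent (1 : K) : Set K) := isClosed_connectedComponent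
  obtain ⟨Φ, hΦ⟩ := F.exists_restrict_eq hCcl
  have hΦ' : ∀ x (hx : x ∈ connectedComponent (1 : K)), Φ x = F ⟨x, hx⟩ := by
    intro x hx
    rw [← hΦ]; rfl
  have hZcl : IsClosed ((S : Set K) ∩ connectedComponent (1 : K)) :=
    closed_inter hCcl F.continuous hFi hs
  have hpow : ∀ O : Set K, IsOpen O → connectedComponent (1 : K) ⊆ O →
      ∃ n : ℕ, ∀ k, n ≤ k → ∀ x : K, x ^ (k.factorial) ∈ O := by
    intro O hO hCO
    obtain ⟨H, hH, hHO⟩ := exists_open_subgroup hO hCO
    refine ⟨H.index, fun k hk x => hHO ?_⟩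
    exact Subgroup.pow_mem_of_index_ne_zero_of_dvd (index_ne_zero hH) x
      fun m hm hmi => Nat.dvd_factorial hm (hmi.trans hk)
  have key : ∀ O : Set K, IsOpen O → (S : Set K) ∩ connectedComponent (1 : K) ⊆ O →
      ∃ n : ℕ, ∀ k, n ≤ k → ∀ x ∈ S, x ^ (k.factorial) ∈ O := by
    intro O hO hZO
    by_contra hcon
    push Not at hcon
    choose k hk g hg hgO using hcon
    obtain ⟨a, -, φ, hφ, ha⟩ := (isCompact_range Φ.continuous).tendsto_subseq
      (x := fun j => Φ (g j ^ (k j).factorial)) (fun j => ⟨_, rfl⟩)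
    obtain ⟨h, hh⟩ : ∃ h : ℕ → K, h = fun j => g (φ j) ^ (k (φ j)).factorial := ⟨_, rfl⟩
    have hhS : ∀ j, h j ∈ S := fun j => by rw [hh]; exact S.pow_mem (hg _) _
    have hhO : ∀ j, h j ∉ O := fun j => by rw [hh]; exact hgO _
    have ha' : Tendsto (fun j => Φ (h j)) atTop (𝓝 a) := by rw [hh]; exact ha
    have hcl : ∀ x, ClusterPt x (map h atTop) → x ∈ connectedComponent (1 : K) ∧ Φ x = a := by
      intro x hx
      constructor
      · by_contra hxC
        obtain ⟨U, V, hU, hV, hCU, hxV, hUV⟩ := hCcl.isCompact.separation_of_notMem hxC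
        obtain ⟨n, hn⟩ := hpow U hU hCU
        have h1 : ∀ᶠ j in atTop, h j ∈ U := by
          filter_upwards [eventually_ge_atTop n] with j hj
          rw [hh]
          exact hn _ (hj.trans ((hφ.id_le j).trans (hk _))) _
        have h2 : ∃ᶠ y in map h atTop, y ∈ V :=
          hx.frequently (hV.mem_nhds hxV)
        have h3 : ∃ᶠ j in atTop, h j ∈ V := h2
        obtain ⟨j, hj1, hj2⟩ := (h3.and_eventually h1).exists
        exact Set.disjoint_left.1 hUV hj2 hj1
      · have h1 : ClusterPt (Φ x) (map Φ (map h atTop)) := hx.map Φ.continuous.continuousAt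
          tendsto_map
        have h2 : map Φ (map h atTop) ≤ 𝓝 a := ha'
        have h3 : ClusterPt (Φ x) (𝓝 a) := h1.mono h2
        haveI : (𝓝 (Φ x) ⊓ 𝓝 a).NeBot := h3
        exact eq_of_nhds_neBot this
    obtain ⟨c, hc⟩ : ∃ c, ClusterPt c (map h atTop) := exists_clusterPt_of_compactSpace _
    have hlim : Tendsto h atTop (𝓝 c) := by
      apply le_nhds_of_unique_clusterPt
      intro y hy
      obtain ⟨h1, h2⟩ := hcl y hy
      obtain ⟨h3, h4⟩ := hcl c hc
      rw [hΦ' _ h1] at h2
      rw [hΦ' _ h3] at h4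
      exact congrArg Subtype.val (hFi (h2.trans h4.symm))
    have hcS : c ∈ S := hs h hhS c hlim
    have hcO : c ∈ O := hZO ⟨hcS, (hcl c hc).1⟩
    obtain ⟨j, hj⟩ := (hlim.eventually (hO.mem_nhds hcO)).exists
    exact hhO j hj
  intro c hc
  by_contra hcS
  obtain ⟨U, V, hU, hV, hZU, hcV, hUV⟩ := hZcl.isCompact.separation_of_notMem
    (fun h => hcS h.1)
  obtain ⟨n, hn⟩ := key U hU hZU
  obtain ⟨b, -, hb⟩ := hdiv c hc _ n.factorial_pos
  have h1 : b ^ n.factorial ∈ closure U :=
    map_mem_closure (f := fun y : K => y ^ n.factorial) (continuous_pow _) (hd b)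
      (fun x hx => hn n le_rfl x hx)
  rw [hb] at h1
  obtain ⟨y, hy1, hy2⟩ := mem_closure_iff.1 h1 V hV hcV
  exact Set.disjoint_left.1 hUV hy2 hy1

end Pool.Agent.V11186.LM
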