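import Pool.Agent.V11186.LM.ThmA
import Pool.Agent.V11186.LM.Alg

set_option autoImplicit false
set_option linter.style.haveILetI false

/-! The dual of the component is countable. -/

namespace Pool.Agent.V11186.LM

open Topology Filter Finsupp

theorem pow_of_orders {u w : Circle} {m k : ℕ} (hu : u ^ (2 ^ m) = 1) (hw : w ^ (2 ^ k) = 1)
    (hwm : w ^ (2 ^ m) ≠ 1) : ∃ a : ℕ, w ^ a = u := by
  have hd : orderOf (w : ℂ) ∣ 2 ^ k := orderOf_dvd_of_pow_eq_one (by
    rw [← Circle.coe_pow, hw, Circle.coe_one])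
  obtain ⟨s, hs, hs2⟩ := (Nat.dvd_prime_pow Nat.prime_two).1 hd
  have hsm : m ≤ s := by
    by_contra hcon
    push Not at hcon
    apply hwm
    apply Circle.ext
    rw [Circle.coe_pow, Circle.coe_one]
    apply orderOf_dvd_iff_pow_eq_one.1
    rw [hs2]
    exact pow_dvd_pow 2 hcon.le
  have hprim : IsPrimitiveRoot (w : ℂ) (2 ^ s) := by
    rw [← hs2]; exact IsPrimitiveRoot.orderOf _
  have hu' : (u : ℂ) ^ (2 ^ s) = 1 := by
    rw [← Circle.coe_pow]
    obtain ⟨t, rfl⟩ := Nat.exists_eq_add_of_le hsm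
    rw [pow_add, pow_mul, hu, one_pow, Circle.coe_one]
  haveI : NeZero (2 ^ s) := ⟨by positivity⟩
  obtain ⟨a, -, ha⟩ := hprim.eq_pow_of_pow_eq_one hu'
  exact ⟨a, Circle.ext (by rw [Circle.coe_pow, ha])⟩

theorem thmB {A : Type*} [CommGroup A] [TopologicalSpace A] [IsTopologicalGroup A] [CompactSpace A]
    [T2Space A] [PreconnectedSpace A] (S : Subgroup A) (hs : SC (S : Set A))
    (htd : ∀ D : Set A, IsPreconnected D → (1 : A) ∈ D → D ⊆ S → D ⊆ {1})
    (hess : ∃ V ∈ 𝓝 (1 : A), ∀ N : Subgroup A, IsClosed (N : Set A) → (N : Set A) ⊆ V →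
      (∀ x ∈ N, x ∈ S → x = 1) → ∀ x ∈ N, x = 1) :
    Countable (A →ₜ* Circle) := by
  classical
  by_contra hunc
  obtain ⟨V, hV, hess⟩ := hess
  -- finitely many characters
  obtain ⟨P, hP⟩ : ∃ P : Finset (A →ₜ* Circle), ∀ a : A, (∀ ψ ∈ P, ψ a = 1) → a ∈ V := by
    have hcomp : IsCompact ((interior V)ᶜ : Set A) := isOpen_interior.isClosed_compl.isCompact
    obtain ⟨P, hP⟩ := hcomp.elim_finite_subcover
      (fun ψ : A →ₜ* Circle => {a : A | ψ a ≠ 1})
      (fun ψ => isOpen_ne_fun ψ.continuous_toFun continuous_const) (by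
        intro a ha
        have hne : a ≠ 1 := by
          rintro rfl
          exact ha (mem_interior_iff_mem_nhds.2 hV)
        obtain ⟨χ, hχ⟩ := char_sep hne
        exact Set.mem_iUnion.2 ⟨χ, hχ⟩)
    refine ⟨P, fun a ha => ?_⟩
    by_contra haV
    have h1 : a ∈ (interior V)ᶜ := fun h => haV (interior_subset h)
    obtain ⟨ψ, hψ⟩ := Set.mem_iUnion.1 (hP h1)
    obtain ⟨hψP, hψa⟩ := Set.mem_iUnion.1 hψ
    exact hψa (ha ψ hψP)
  -- the algebraic input
  have htf : ∀ n : ℤ, n ≠ 0 → ∀ b : Additive (A →ₜ* Circle), n • b = 0 → b = 0 := by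
    intro n hn b hb
    have h1 : n.natAbs • b = 0 := by
      rcases Int.natAbs_eq n with h | h
      · rw [h, natCast_zsmul] at hb; exact hb
      · rw [h, neg_smul, neg_eq_zero, natCast_zsmul] at hb; exact hb
    have h2 : (b.toMul) ^ n.natAbs = 1 := congrArg Additive.toMul h1
    have h3 := char_torsionfree (Int.natAbs_pos.2 hn) _ h2
    exact congrArg Additive.ofMul h3
  obtain ⟨e, b, heP, heb⟩ := exists_e htf hunc (P.image Additive.ofMul)
  have heP' : ∀ ψ ∈ P, e (Additive.ofMul ψ) = 0 := fun ψ hψ =>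
    heP _ (Finset.mem_image_of_mem _ hψ)
  -- the metrizable subgroup `M`
  let M : Subgroup A :=
    { carrier := {a | ∀ χ : A →ₜ* Circle, e (Additive.ofMul χ) = 0 → χ a = 1}
      one_mem' := fun χ _ => map_one χ
      mul_mem' := by
        intro x y hx hy χ hχ
        rw [map_mul, hx χ hχ, hy χ hχ, one_mul]
      inv_mem' := by
        intro x hx χ hχ
        rw [map_inv, hx χ hχ, inv_one] }
  have hMcl : IsClosed (M : Set A) := by
    have : (M : Set A) = ⋂ χ : A →ₜ* Circle, ⋂ _ : e (Additive.ofMul χ) = 0, {a | χ a = 1} := by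
      ext a
      simp only [Set.mem_iInter, Set.mem_ofPred_eq]
      exact Iff.rfl
    rw [this]
    exact isClosed_iInter fun χ => isClosed_iInter fun _ =>
      isClosed_eq χ.continuous_toFun continuous_const
  have hMV : (M : Set A) ⊆ V := fun a ha => hP a fun ψ hψ => ha ψ (heP' ψ hψ)
  let F : M → ((ℕ →₀ ℚ) → Circle) := fun a v =>
    if h : ∃ χ : A →ₜ* Circle, e (Additive.ofMul χ) = v then h.choose (a : A) else 1
  have hF : Continuous F := by
    refine continuous_pi fun v => ?_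
    by_cases h : ∃ χ : A →ₜ* Circle, e (Additive.ofMul χ) = v
    · have : (fun a : M => F a v) = fun a : M => h.choose (a : A) := by
        funext a; exact dif_pos h
      rw [this]
      exact h.choose.continuous_toFun.comp continuous_subtype_val
    · have : (fun a : M => F a v) = fun a : M => 1 := by
        funext a; exact dif_neg h
      rw [this]
      exact continuous_const
  have hFi : Function.Injective F := by
    intro x y hxy
    by_contra hne
    have h1 : ((x : A) * (y : A)⁻¹) ≠ 1 := fun h => hne (Subtype.ext (mul_inv_eq_one.1 h))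
    obtain ⟨χ, hχ⟩ := char_sep h1
    apply hχ
    have hex : ∃ χ' : A →ₜ* Circle, e (Additive.ofMul χ') = e (Additive.ofMul χ) := ⟨χ, rfl⟩
    have h2 : hex.choose (x : A) = hex.choose (y : A) := by
      have h3 := congrFun hxy (e (Additive.ofMul χ))
      simp only [F] at h3
      rw [dif_pos hex, dif_pos hex] at h3
      exact h3
    have h4 : ∀ z : M, χ z = hex.choose (z : A) := by
      intro z
      have h5 : e (Additive.ofMul (χ * hex.choose⁻¹)) = 0 := by
        rw [ofMul_mul, map_add, ofMul_inv, map_neg, hex.choose_spec, add_neg_cancel]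
      have h6 := z.2 _ h5
      have h7 : χ z * (hex.choose (z : A))⁻¹ = 1 := h6
      exact mul_inv_eq_one.1 h7
    rw [map_mul, map_inv, h4 x, h4 y, h2, mul_inv_cancel]
  haveI : FirstCountableTopology ((ℕ →₀ ℚ) → Circle) := inferInstance
  -- the closed subgroup `Z`
  let Z : Subgroup A := S ⊓ M
  have hZcl : IsClosed (Z : Set A) := by
    have h1 := closed_inter (M := (M : Set A)) hMcl (F := F) hF hFi hs
    exact h1
  haveI : CompactSpace Z := isCompact_iff_compactSpace.1 hZcl.isCompact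
  have hZtd : connectedComponent (1 : Z) ⊆ {1} := by
    intro z hz
    have h1 := htd ((Subtype.val : Z → A) '' connectedComponent (1 : Z))
      (isPreconnected_connectedComponent.image _ continuous_subtype_val.continuousOn)
      ⟨1, mem_connectedComponent, rfl⟩ (by rintro _ ⟨z, -, rfl⟩; exact z.2.1)
      ⟨z, hz, rfl⟩
    exact Subtype.ext h1
  have hfin : ∀ i : ℕ, ∃ n : ℕ, 0 < n ∧ ∀ z ∈ Z, (b i).toMul z ^ n = 1 := by
    intro i
    obtain ⟨n, hn, h⟩ := finite_order_of_td hZtd
      ((b i).toMul.comp ⟨Z.subtype, continuous_subtype_val⟩)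
    exact ⟨n, hn, fun z hz => h ⟨z, hz⟩⟩
  choose n hn hnZ using hfin
  -- the point `x`
  obtain ⟨h, hh1, hh2⟩ := exists_h (fun i => n i + i)
  obtain ⟨x, hx⟩ := realize (A := A) (fun χ => (h (e (Additive.ofMul χ))).toMul) (by
    intro χ ψ
    rw [ofMul_mul, map_add, map_add, toMul_add])
  have hxM : x ∈ M := by
    intro χ hχ
    rw [hx, hχ, map_zero, toMul_zero]
  have hxZ : ∀ k : ℕ, x ^ (2 ^ k) ∉ Z := by
    intro k hk
    have h1 := hnZ k _ hk
    rw [map_pow, ← pow_mul, hx, ofMul_toMul, heb] at h1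
    have h2 := Nat.le_of_dvd (Nat.mul_pos (by positivity) (hn k)) (hh2 k _ h1)
    rw [pow_add, mul_comm] at h2
    have h3 := Nat.le_of_mul_le_mul_left h2 (by positivity)
    exact absurd h3 (not_le.2 Nat.lt_two_pow_self)
  -- the procyclic subgroup
  let L : Subgroup A := (Subgroup.zpowers x).topologicalClosure
  have hLcl : IsClosed (L : Set A) := Subgroup.isClosed_topologicalClosure _
  have hxL : x ∈ L := Subgroup.le_topologicalClosure _ (Subgroup.mem_zpowers x)
  have hLmin : ∀ H : Subgroup A, IsClosed (H : Set A) → x ∈ H → L ≤ H := fun H hH hxH =>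
    Subgroup.topologicalClosure_minimal _ ((Subgroup.zpowers_le).2 hxH) hH
  have hLM : L ≤ M := hLmin M hMcl hxM
  obtain ⟨y, hyL, hyS, hy1⟩ : ∃ y ∈ L, y ∈ S ∧ y ≠ 1 := by
    by_contra hcon
    push Not at hcon
    have h1 := hess L hLcl (fun a ha => hMV (hLM ha)) hcon x hxL
    apply hxZ 0
    rw [h1, one_pow]
    exact Z.one_mem
  obtain ⟨χ, hχ⟩ := char_sep hy1
  obtain ⟨m, hm⟩ := hh1 (e (Additive.ofMul χ))
  have hm' : χ x ^ (2 ^ m) = 1 := by rw [hx]; exact hm
  let L' : Subgroup A := L ⊓ Z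
  have hL'cl : IsClosed (L' : Set A) := hLcl.inter hZcl
  haveI : IsClosed (L' : Set A) := hL'cl
  haveI : T2Space (A ⧸ L') := inferInstance
  have hxL' : ((x ^ (2 ^ m) : A) : A ⧸ L') ≠ 1 := fun h =>
    hxZ m ((QuotientGroup.eq_one_iff (N := L') _).1 h).2
  obtain ⟨θ, hθ⟩ := char_sep hxL'
  let ψ : A →ₜ* Circle := θ.comp ⟨QuotientGroup.mk' L', QuotientGroup.continuous_mk⟩
  have hψ : ∀ a, ψ a = θ (a : A ⧸ L') := fun _ => rfl
  obtain ⟨k, hk⟩ := hh1 (e (Additive.ofMul ψ))
  have hk' : ψ x ^ (2 ^ k) = 1 := by rw [hx]; exact hk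
  have hψm : ψ x ^ (2 ^ m) ≠ 1 := by
    rw [← map_pow, hψ]; exact hθ
  obtain ⟨a, ha⟩ := pow_of_orders hm' hk' hψm
  let E : Subgroup A :=
    { carrier := {l | ψ l ^ a = χ l}
      one_mem' := by
        show ψ 1 ^ a = χ 1
        rw [map_one, map_one, one_pow]
      mul_mem' := by
        intro p q hp hq
        have hp' : ψ p ^ a = χ p := hp
        have hq' : ψ q ^ a = χ q := hq
        show ψ (p * q) ^ a = χ (p * q)
        rw [map_mul, map_mul, mul_pow, hp', hq']
      inv_mem' := by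
        intro p hp
        have hp' : ψ p ^ a = χ p := hp
        show ψ p⁻¹ ^ a = χ p⁻¹
        rw [map_inv, map_inv, inv_pow, hp'] }
  have hEcl : IsClosed (E : Set A) :=
    isClosed_eq (ψ.continuous_toFun.pow a) χ.continuous_toFun
  have hyE : y ∈ E := hLmin E hEcl ha hyL
  have hψy : ψ y = 1 := by
    rw [hψ]
    have : ((y : A) : A ⧸ L') = 1 := (QuotientGroup.eq_one_iff (N := L') _).2
      ⟨hyL, hyS, hLM hyL⟩
    rw [this, map_one]
  apply hχ
  have hyE' : ψ y ^ a = χ y := hyE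
  rw [← hyE', hψy, one_pow]

end Pool.Agent.V11186.LM
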